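import Pool.Agent.MP_ea150c_mp.H49.SpecG

/-! The scalar Cech theorem. -/

namespace Pool.Agent.MP_ea150c_mp.H12

open Pool.Agent.MP_ea150c_mp.H49

section Cech
variable {O E I : Type} [CommRing O] [AddCommGroup E] [Module O E] [LinearOrder I]

theorem dl_app (x : Finset I → E) (J : Finset I) :
    dl O E x J = ∑ j ∈ J, ((-1 : O) ^ (J.filter (· < j)).card) • x (J.erase j) := rfl

theorem dl_map {E' : Type} [AddCommGroup E'] [Module O E'] (L : E →ₗ[O] E') (x : Finset I → E)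
    (J : Finset I) : dl O E' (fun K => L (x K)) J = L (dl O E x J) := by
  simp [dl_app]

theorem dl_mem (N : Finset I → Submodule O E) (hN : ∀ J J', J ⊆ J' → N J ≤ N J')
    (x : Finset I → E) (hx : ∀ J, x J ∈ N J) (J : Finset I) : dl O E x J ∈ N J :=
  Submodule.sum_mem _ fun j _ =>
    Submodule.smul_mem _ _ (hN _ _ (Finset.erase_subset j J) (hx _))

theorem dl_congr (x y : Finset I → E) (J : Finset I)
    (h : ∀ K : Finset I, K.card + 1 = J.card → x K = y K) : dl O E x J = dl O E y J :=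
  Finset.sum_congr rfl fun j hj => by rw [h _ (Finset.card_erase_add_one hj)]

theorem dl_zero_of (x : Finset I → E) (J : Finset I)
    (h : ∀ K : Finset I, K.card + 1 = J.card → x K = 0) : dl O E x J = 0 := by
  rw [dl_congr x 0 J h, map_zero]
  rfl

theorem cut_ex (N : Finset I → Submodule O E) (n : ℕ) (x y : Finset I → E) (hy : ∀ J, y J ∈ N J)
    (h : dl O E y = x) (hx : ∀ J : Finset I, J.card = n + 1 → x J = 0) :
    ∃ y' : Finset I → E, (∀ J, y' J ∈ N J) ∧ dl O E y' = x ∧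
      ∀ J : Finset I, J.card = n → y' J = 0 := by
  refine ⟨fun J => if J.card = n then 0 else y J, fun J => ?_, funext fun J => ?_,
    fun J hJ => if_pos hJ⟩
  · show (if J.card = n then 0 else y J) ∈ N J
    split_ifs
    · exact zero_mem _
    · exact hy J
  · by_cases hJ : J.card = n + 1
    · rw [hx J hJ]
      exact dl_zero_of _ _ fun K hK => if_pos (by omega)
    · rw [← h]
      exact dl_congr _ _ _ fun K hK => if_neg (by omega)

theorem dl_one (x : Finset I → E) (a : I) : dl O E x {a} = x ∅ := by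
  simp [dl_app, Finset.filter_singleton]

theorem dl_two (x : Finset I → E) (a b : I) (h : a < b) :
    dl O E x {a, b} = x {b} - x {a} := by
  have e1 : ({a, b} : Finset I).erase a = {b} := Finset.erase_insert (by simp [h.ne])
  have e2 : ({a, b} : Finset I).erase b = {a} := by
    rw [Finset.pair_comm]
    exact Finset.erase_insert (by simp [h.ne'])
  rw [dl_app, Finset.sum_pair h.ne, e1, e2]
  simp [Finset.filter_insert, Finset.filter_singleton, h, h.not_gt, sub_eq_add_neg]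

theorem dl_three (x : Finset I → E) (a b c : I) (h : a < b) (h' : b < c) :
    dl O E x {a, b, c} = x {b, c} - x {a, c} + x {a, b} := by
  have h'' : a < c := h.trans h'
  have e1 : ({a, b, c} : Finset I).erase a = {b, c} :=
    Finset.erase_insert (by simp [h.ne, h''.ne])
  have e2 : ({a, b, c} : Finset I).erase b = {a, c} := by
    rw [Finset.insert_comm]
    exact Finset.erase_insert (by simp [h.ne', h'.ne])
  have e3 : ({a, b, c} : Finset I).erase c = {a, b} := by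
    rw [Finset.pair_comm b c, Finset.insert_comm]
    exact Finset.erase_insert (by simp [h''.ne', h'.ne'])
  rw [dl_app, Finset.sum_insert (by simp [h.ne, h''.ne]), Finset.sum_pair h'.ne, e1, e2, e3]
  simp [Finset.filter_insert, Finset.filter_singleton, h, h', h'', h.not_gt, h'.not_gt, h''.not_gt,
    Finset.card_pair h.ne, sub_eq_add_neg, add_assoc]

theorem chase (hdd : ∀ x : Finset I → E, dl O E (dl O E x) = 0) (ξ ξ' : E →ₗ[O] E)
    (Z0 Z1 Z2 Z3 : Finset I → Submodule O E) (m0 : ∀ J J', J ⊆ J' → Z0 J ≤ Z0 J')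
    (m1 : ∀ J J', J ⊆ J' → Z1 J ≤ Z1 J') (m2 : ∀ J J', J ⊆ J' → Z2 J ≤ Z2 J')
    (hend : ∀ J, J.Nonempty → ∀ v ∈ Z3 J, ∃ z₁ ∈ Z1 J, ∃ z₂ ∈ Z2 J, v = ξ' z₁ - ξ z₂)
    (hmid : ∀ J, ∀ z₁ ∈ Z1 J, ∀ z₂ ∈ Z2 J, ξ' z₁ = ξ z₂ → ∃ z ∈ Z0 J, ξ z = z₁ ∧ ξ' z = z₂)
    (y y1 y2 t : Finset I → E) (hy : ∀ J, y J ∈ Z0 J) (hy1 : ∀ J, y1 J ∈ Z1 J)
    (hy2 : ∀ J, y2 J ∈ Z2 J) (ht : ∀ J, t J ∈ Z3 J) (e1 : ∀ J, dl O E y1 J = ξ (y J))
    (e2 : ∀ J, dl O E y2 J = ξ' (y J)) (e3 : ∀ J, dl O E t J = ξ' (y1 J) - ξ (y2 J))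
    (e4 : ∃ z₁ ∈ Z1 ∅, ∃ z₂ ∈ Z2 ∅, t ∅ = ξ' z₁ - ξ z₂) :
    ∃ a : Finset I → E, (∀ J, a J ∈ Z0 J) ∧ (∀ J, ξ (a J) = 0) ∧ (∀ J, ξ' (a J) = 0) ∧
      dl O E a = dl O E y := by
  have h1 : ∀ J, ∃ z₁ ∈ Z1 J, ∃ z₂ ∈ Z2 J, t J = ξ' z₁ - ξ z₂ := by
    intro J
    rcases J.eq_empty_or_nonempty with rfl | hJ
    · exact e4
    · exact hend J hJ _ (ht J)
  choose s1 hs1 s2 hs2 hs using h1
  have h2 : ∀ J, ∃ z ∈ Z0 J, ξ z = y1 J - dl O E s1 J ∧ ξ' z = y2 J - dl O E s2 J := by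
    intro J
    refine hmid J _ (sub_mem (hy1 J) (dl_mem Z1 m1 s1 hs1 J)) _
      (sub_mem (hy2 J) (dl_mem Z2 m2 s2 hs2 J)) ?_
    have h3 : t = (fun K => ξ' (s1 K)) - fun K => ξ (s2 K) := funext hs
    have h4 := e3 J
    rw [h3, map_sub, Pi.sub_apply, dl_map, dl_map] at h4
    rw [map_sub, map_sub, sub_eq_sub_iff_sub_eq_sub, h4]
  choose z hz hz1 hz2 using h2
  refine ⟨y - dl O E z, fun J => sub_mem (hy J) (dl_mem Z0 m0 z hz J), fun J => ?_, fun J => ?_,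
    by rw [map_sub, hdd, sub_zero]⟩
  · have h3 : (fun K => ξ (z K)) = y1 - dl O E s1 := funext hz1
    rw [Pi.sub_apply, map_sub, ← dl_map, h3, map_sub, hdd, sub_zero, e1, sub_self]
  · have h3 : (fun K => ξ' (z K)) = y2 - dl O E s2 := funext hz2
    rw [Pi.sub_apply, map_sub, ← dl_map, h3, map_sub, hdd, sub_zero, e2, sub_self]

end Cech

section Homotopy
variable {O A : Type} [CommRing O] [CommRing A] [Algebra O A]

theorem hom1 (D : A →ₗ[O] A) (hD : ∀ a b, D (a * b) = D a * b + a * D b) (n z : A) (c : O)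
    (hc : 2 * c = 1) (hn : D n = 1) (hz : D (D z) = 0) : D (n * z - c • (n * (n * D z))) = z := by
  have h1 : c • (n * D z + n * D z) = n * D z := by
    rw [← two_smul O, smul_smul, mul_comm c, hc, one_smul]
  rw [map_sub, map_smul, hD, hD, hD, hn, hz, one_mul, one_mul, one_mul, mul_zero, add_zero, h1]
  ring

theorem hom2 (D D' : A →ₗ[O] A) (hD : ∀ a b, D' (a * b) = D' a * b + a * D' b) (n z : A) (c : O)
    (hn : D' n = 0) (hz : D' z = 0) (hz' : D' (D z) = 0) :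
    D' (n * z - c • (n * (n * D z))) = 0 := by
  rw [map_sub, map_smul, hD, hD, hD, hn, hz, hz']
  simp

end Homotopy

theorem cs (c1 : C1) (cx : CX) (ci : CI) (cm : CM) (hcc : CC) : CS := by
  intro I τ ι _ _ _ _ _ _ M hM Λ _ h2 w hw
  obtain ⟨d, e, p, q⟩ := w
  obtain ⟨x1, x2, x3, -, -, x6, x7, x8, x9, -, x11, x12, x13⟩ := cx I τ ι M hM Λ
  obtain ⟨-, -, c3, -⟩ := hcc I τ ι M hM Λ
  obtain ⟨c, hc⟩ := h2.exists_right_inv
  have hs := hw
  obtain ⟨s1, s2, s3⟩ := hs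
  simp only at s1 s2 s3
  have hdd := (c1 Λ (Zr Λ I τ) I).1
  set ξ := xiZ Λ I τ
  set ξ' := xiZ' Λ I τ
  let Z : ℤ → ℤ → Finset I → Submodule Λ (Zr Λ I τ) := fun a b J => M.Zp Λ J (d, e, a, b)
  have mZ : ∀ a b J J', J ⊆ J' → Z a b J ≤ Z a b J' := fun a b J J' h => x12 J J' _ h
  have hξ : ∀ {a b J z}, z ∈ Z a b J → ξ z ∈ Z (a - 2) b J := by
    intro a b J z h
    simpa using (x8 J _ z h).1
  have hξ' : ∀ {a b J z}, z ∈ Z a b J → ξ' z ∈ Z a (b - 2) J := by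
    intro a b J z h
    simpa using (x8 J _ z h).2
  have hn : ∀ {a b J z j}, j ∈ J → z ∈ Z (a - 2) b J → nZ Λ τ j * z ∈ Z a b J := by
    intro a b J z j hj h
    simpa using x11 J _ _ _ _ (x9 J j hj).1 h
  have hn' : ∀ {a b J z j}, j ∈ J → z ∈ Z a (b - 2) J → nZ' Λ τ j * z ∈ Z a b J := by
    intro a b J z j hj h
    simpa using x11 J _ _ _ _ (x9 J j hj).2.1 h
  have hz : ∀ {b J z}, z ∈ Z (p - 2) b J → ξ (ξ z) = 0 := by
    intro b J z h
    have h1 := hξ (hξ h)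
    simp only [Z] at h1
    rwa [x13 J _ (Or.inl (by simp only; omega)), Submodule.mem_bot] at h1
  have hz' : ∀ {a J z}, z ∈ Z a (q - 2) J → ξ' (ξ' z) = 0 := by
    intro b J z h
    have h1 := hξ' (hξ' h)
    simp only [Z] at h1
    rwa [x13 J _ (Or.inr (by simp only; omega)), Submodule.mem_bot] at h1
  have hinv : ∀ {b J z}, J.Nonempty → z ∈ Z (p - 2) b J → ∃ y ∈ Z p b J, ξ y = z := by
    rintro b J z ⟨j, hj⟩ h
    exact ⟨_, sub_mem (hn hj h) (Submodule.smul_mem _ c (hn hj (hn hj (hξ h)))),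
      hom1 ξ x1 _ z c hc (x6 j).1 (hz h)⟩
  have hinv' : ∀ {a J z}, J.Nonempty → z ∈ Z a (q - 2) J →
      ∃ y ∈ Z a q J, ξ' y = z ∧ (ξ z = 0 → ξ y = 0) := by
    rintro a J z ⟨j, hj⟩ h
    exact ⟨_, sub_mem (hn' hj h) (Submodule.smul_mem _ c (hn' hj (hn' hj (hξ' h)))),
      hom1 ξ' x2 _ z c hc (x6 j).2.2.2 (hz' h),
      fun h0 => hom2 ξ' ξ x1 _ z c (x6 j).2.2.1 h0 (by rw [x3, h0, map_zero])⟩
  have hend : ∀ J : Finset I, J.Nonempty → ∀ v ∈ Z (p - 2) (q - 2) J,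
      ∃ z₁ ∈ Z (p - 2) q J, ∃ z₂ ∈ Z p (q - 2) J, v = ξ' z₁ - ξ z₂ := by
    intro J hJ v hv
    obtain ⟨y, hy, h, -⟩ := hinv' hJ hv
    exact ⟨y, hy, 0, zero_mem _, by rw [map_zero, sub_zero, h]⟩
  have hmid : M.KosW Λ (d, e, p, q) → ∀ J : Finset I, ∀ z₁ ∈ Z (p - 2) q J,
      ∀ z₂ ∈ Z p (q - 2) J, ξ' z₁ = ξ z₂ → ∃ z ∈ Z p q J, ξ z = z₁ ∧ ξ' z = z₂ := by
    intro hK J z₁ h1 z₂ h2 h
    rcases J.eq_empty_or_nonempty with rfl | hJ
    · exact hK.2 z₁ (by simpa using h1) z₂ (by simpa using h2) h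
    · obtain ⟨y, hy, hy'⟩ := hinv hJ h1
      obtain ⟨y', a1, a2, a3⟩ := hinv' hJ (sub_mem h2 (hξ' hy))
      refine ⟨y + y', add_mem hy a1, ?_, ?_⟩
      · rw [map_add, a3 (by rw [map_sub, x3, hy', h, sub_self]), add_zero, hy']
      · rw [map_add, a2, add_sub_cancel]
  have hex : ∀ a b, a ≤ p → b ≤ q → ∀ x : Finset I → Zr Λ I τ, (∀ J, x J ∈ Z a b J) →
      (∀ J, dl Λ _ x J = 0) → ∃ y : Finset I → Zr Λ I τ, (∀ J, y J ∈ Z a b J) ∧ dl Λ _ y = x :=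
    fun a b ha hb x hx h => cm I τ ι M hM Λ (d, e, a, b) (by simp only; omega) x hx (funext h)
  have hval : ∀ (x : Finset I → Ainv Λ I τ) J,
      dl Λ _ (fun K => (x K).1) J = (dl Λ _ x J).1 :=
    fun x J => dl_map (Ainv Λ I τ).val.toLinearMap x J
  have hfin : M.KosW Λ (d, e, p, q) → ∀ a : Finset I → Zr Λ I τ, (∀ J, a J ∈ Z p q J) →
      (∀ J, ξ (a J) = 0) → (∀ J, ξ' (a J) = 0) →
      ∃ z ∈ M.CA Λ (d, e, p, q), ∀ J, (dl Λ _ z J).1 = dl Λ _ a J := by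
    intro hK a h1 h2 h3
    refine ⟨fun J => ⟨a J, ci I τ ι M hM Λ (IsUnit.of_mul_eq_one _ hc) J _ _ hw (h1 J) (h2 J)
      (h3 J)⟩, ⟨Subtype.ext (hK.1 _ (h1 ∅) (h2 ∅) (h3 ∅)), h1⟩, fun J => (hval _ J).symm⟩
  have st1 : ∀ x ∈ M.CA Λ (d, e, p, q), dl Λ _ x = 0 →
      ∃ y : Finset I → Zr Λ I τ, (∀ J, y J ∈ Z p q J) ∧ dl Λ _ y = fun J => (x J).1 :=
    fun x hx h => hex p q le_rfl le_rfl _ hx.2 fun J => by rw [hval, h]; rfl
  have st2 : ∀ (x : Finset I → Ainv Λ I τ) (y : Finset I → Zr Λ I τ), (∀ J, y J ∈ Z p q J) →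
      (dl Λ _ y = fun J => (x J).1) →
      (∃ y1 : Finset I → Zr Λ I τ, (∀ J, y1 J ∈ Z (p - 2) q J) ∧ dl Λ _ y1 = fun J => ξ (y J)) ∧
      (∃ y2 : Finset I → Zr Λ I τ, (∀ J, y2 J ∈ Z p (q - 2) J) ∧ dl Λ _ y2 = fun J => ξ' (y J)) :=
    fun x y hy h =>
      ⟨hex _ _ (by omega) le_rfl _ (fun J => hξ (hy J)) fun J => by
        rw [dl_map, h]; exact (x7 _ (x J).2).1,
      hex _ _ le_rfl (by omega) _ (fun J => hξ' (hy J)) fun J => by
        rw [dl_map, h]; exact (x7 _ (x J).2).2⟩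
  have st3 : ∀ y y1 y2 : Finset I → Zr Λ I τ, (∀ J, y1 J ∈ Z (p - 2) q J) →
      (∀ J, y2 J ∈ Z p (q - 2) J) → (dl Λ _ y1 = fun J => ξ (y J)) →
      (dl Λ _ y2 = fun J => ξ' (y J)) → ∃ t : Finset I → Zr Λ I τ,
        (∀ J, t J ∈ Z (p - 2) (q - 2) J) ∧ dl Λ _ t = fun J => ξ' (y1 J) - ξ (y2 J) := by
    intro y y1 y2 h1 h2 e1 e2
    refine hex _ _ (by omega) (by omega) _ (fun J => sub_mem (hξ' (h1 J)) (hξ (h2 J))) fun J => ?_
    have h3 : (fun J => ξ' (y1 J) - ξ (y2 J)) = (fun J => ξ' (y1 J)) - fun J => ξ (y2 J) := rfl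
    rw [h3, map_sub, Pi.sub_apply, dl_map, dl_map, e1, e2, x3, sub_self]
  refine ⟨fun hK x hx h3 h0 => ?_, fun Inv hK x hx h0 => ?_⟩
  · obtain ⟨y, hy, e0⟩ := st1 x hx h0
    obtain ⟨y, hy, e0, v0⟩ := cut_ex _ 2 _ y hy e0 fun J hJ => by rw [h3 J hJ]; rfl
    obtain ⟨⟨y1, hy1, e1⟩, ⟨y2, hy2, e2⟩⟩ := st2 x y hy e0
    obtain ⟨y1, hy1, e1, v1⟩ := cut_ex _ 1 _ y1 hy1 e1 fun J hJ => by rw [v0 J hJ, map_zero]
    obtain ⟨y2, hy2, e2, v2⟩ := cut_ex _ 1 _ y2 hy2 e2 fun J hJ => by rw [v0 J hJ, map_zero]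
    obtain ⟨t, ht, e3⟩ := st3 y y1 y2 hy1 hy2 e1 e2
    obtain ⟨t, ht, e3, v3⟩ := cut_ex _ 0 _ t ht e3 fun J hJ => by
      rw [v1 J hJ, v2 J hJ, map_zero, map_zero, sub_zero]
    obtain ⟨a, a1, a2, a3, a4⟩ := chase hdd ξ ξ' _ _ _ _ (mZ p q) (mZ _ _) (mZ _ _) hend (hmid hK)
      y y1 y2 t hy hy1 hy2 ht (congrFun e1) (congrFun e2) (congrFun e3)
      ⟨0, zero_mem _, 0, zero_mem _, by rw [v3 ∅ rfl, map_zero, map_zero, sub_zero]⟩
    obtain ⟨z, hz, hz'⟩ := hfin hK a a1 a2 a3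
    refine ⟨z, hz, funext fun J => Subtype.ext ?_⟩
    rw [hz', a4, e0]
  · obtain ⟨y, hy, e0⟩ := st1 x hx h0
    obtain ⟨⟨y1, hy1, e1⟩, ⟨y2, hy2, e2⟩⟩ := st2 x y hy e0
    obtain ⟨t, ht, e3⟩ := st3 y y1 y2 hy1 hy2 e1 e2
    obtain ⟨h, hh, z₁, hz₁, z₂, hz₂, e4⟩ := hK.2.2 (t ∅) (by simpa using ht ∅)
    have hZ : ∀ J, h.1 ∈ Z (p - 2) (q - 2) J := fun J =>
      mZ _ _ ∅ J (Finset.empty_subset J) (by
        have h1 : h ∈ M.Ap Λ ∅ (d, e, p - 2, q - 2) := by simpa using hK.2.1 h hh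
        exact h1)
    obtain ⟨k1, k2⟩ := x7 _ h.2
    let T : Finset I → Zr Λ I τ := fun J => if J.card = 0 then h.1 else 0
    let Y1 : Finset I → Zr Λ I τ := fun J => if J.card = 1 then ∑ j ∈ J, nZ' Λ τ j * h.1 else 0
    let m : Finset I → Zr Λ I τ := fun J => if hJ : J.Nonempty then nZ Λ τ (J.min' hJ) else 0
    let Y : Finset I → Zr Λ I τ := fun J => m J * dl Λ _ Y1 J
    have hT : ∀ J, T J ∈ Z (p - 2) (q - 2) J := fun J => by
      simp only [T]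
      split_ifs
      · exact hZ J
      · exact zero_mem _
    have hY1 : ∀ J, Y1 J ∈ Z (p - 2) q J := fun J => by
      simp only [Y1]
      split_ifs
      · exact Submodule.sum_mem _ fun j hj => hn' hj (hZ J)
      · exact zero_mem _
    have hY : ∀ J, Y J ∈ Z p q J := fun J => by
      simp only [Y, m]
      split_ifs with hJ
      · exact hn (J.min'_mem hJ) (dl_mem _ (mZ _ _) Y1 hY1 J)
      · rw [zero_mul]
        exact zero_mem _
    have b1 : ∀ J, ξ (Y1 J) = 0 := fun J => by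
      simp only [Y1]
      split_ifs
      · rw [map_sum]
        exact Finset.sum_eq_zero fun j _ => by rw [x1, (x6 j).2.2.1, k1]; simp
      · exact map_zero _
    have b2 : ∀ J, dl Λ _ T J = ξ' (Y1 J) := fun J => by
      by_cases hJ : J.card = 1
      · obtain ⟨a, rfl⟩ := Finset.card_eq_one.1 hJ
        rw [dl_one]
        simp [T, Y1, x2, (x6 a).2.2.2, k2]
      · rw [dl_zero_of _ _ fun K hK => if_neg (by omega)]
        simp [Y1, hJ]
    have b3 : ∀ J, dl Λ _ Y1 J = ξ (Y J) := fun J => by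
      have h1 : ξ (dl Λ _ Y1 J) = 0 := by
        rw [← dl_map]
        exact dl_zero_of _ _ fun K _ => b1 K
      simp only [Y, m]
      rw [x1, h1, mul_zero, add_zero]
      split_ifs with hJ
      · rw [(x6 _).1, one_mul]
      · rw [Finset.not_nonempty_iff_eq_empty.1 hJ, map_zero, zero_mul]
        rfl
    have b4 : ∀ J, ξ' (Y J) = 0 := fun J => by
      have h1 : ξ' (dl Λ _ Y1 J) = 0 := by
        rw [← dl_map, ← funext b2]
        exact congrFun (hdd T) J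
      simp only [Y, m]
      rw [x2, h1, mul_zero, add_zero]
      split_ifs with hJ
      · rw [(x6 _).2.1, zero_mul]
      · rw [map_zero, zero_mul]
    have b5 : ∀ a b : I, a < b → Y {a, b} = nZ Λ τ a * ((nZ' Λ τ b - nZ' Λ τ a) * h.1) := by
      intro a b hab
      simp only [Y, m]
      rw [dif_pos (Finset.insert_nonempty _ _), dl_two _ _ _ hab]
      simp [Y1, hab.le, sub_mul]
    have b6 : ∀ J, dl Λ _ Y J = (h * cc Λ τ J).1 := fun J => by
      by_cases hJ : J.card = 3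
      · have h1 : J = {J.orderEmbOfFin hJ 0, J.orderEmbOfFin hJ 1, J.orderEmbOfFin hJ 2} := by
          have h3 : (Finset.univ : Finset (Fin 3)) = {0, 1, 2} := rfl
          conv_lhs => rw [← J.image_orderEmbOfFin_univ hJ, h3]
          simp only [Finset.image_insert, Finset.image_singleton]
        have h01 : J.orderEmbOfFin hJ 0 < J.orderEmbOfFin hJ 1 :=
          (J.orderEmbOfFin hJ).strictMono (by decide)
        have h12 : J.orderEmbOfFin hJ 1 < J.orderEmbOfFin hJ 2 :=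
          (J.orderEmbOfFin hJ).strictMono (by decide)
        rw [MulMemClass.coe_mul, c3 J hJ]
        conv_lhs => rw [h1]
        rw [dl_three _ _ _ _ h01 h12, b5 _ _ h01, b5 _ _ h12, b5 _ _ (h01.trans h12)]
        ring
      · rw [cc, dif_neg hJ, mul_zero]
        refine dl_zero_of _ _ fun K hK => ?_
        simp only [Y]
        rw [dl_zero_of _ _ fun L hL => if_neg (by omega), mul_zero]
    obtain ⟨a, a1, a2, a3, a4⟩ := chase hdd ξ ξ' _ _ _ _ (mZ p q) (mZ _ _) (mZ _ _) hend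
      (hmid hK.1) (y - Y) (y1 - Y1) y2 (t - T) (fun J => sub_mem (hy J) (hY J))
      (fun J => sub_mem (hy1 J) (hY1 J)) hy2 (fun J => sub_mem (ht J) (hT J))
      (fun J => by rw [map_sub, Pi.sub_apply, Pi.sub_apply, map_sub, e1, b3])
      (fun J => by rw [Pi.sub_apply, map_sub, e2, b4, sub_zero])
      (fun J => by rw [map_sub, Pi.sub_apply, Pi.sub_apply, map_sub, e3, b2]; ring)
      ⟨z₁, by simpa using hz₁, z₂, by simpa using hz₂, by
        rw [Pi.sub_apply, e4]; simp only [T, Finset.card_empty, if_true]; ring⟩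
    obtain ⟨z, hz, hz'⟩ := hfin hK.1 a a1 a2 a3
    refine ⟨h, hh, z, hz, funext fun J => Subtype.ext ?_⟩
    rw [Pi.add_apply, AddMemClass.coe_add, hz', a4, map_sub, Pi.sub_apply, e0, b6]
    ring

end Pool.Agent.MP_ea150c_mp.H12
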