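import Pool.Agent.MP_ea150c_mp.H20.SpecR

/-! No match with the power sums of Weil numbers. -/

namespace Pool.Agent.MP_ea150c_mp.H12

open Polynomial Pool.Agent.MP_ea150c_mp.H20

noncomputable section

/-- The algebraic closure of the rationals. -/
abbrev Lq : Type := AlgebraicClosure ℚ

theorem aroots_map_hom {K : Type} [Field K] (φ : Lq →+* K) (f : ℤ[X]) :
    f.aroots K = (f.aroots Lq).map φ := by
  rw [aroots, aroots, ← (IsAlgClosed.splits _).roots_map φ, Polynomial.map_map]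
  congr 2
  exact RingHom.ext_int _ _

theorem ps_map {K L : Type} [Field K] [Field L] (φ : L →+* K) (s : Multiset L) (k : ℕ) :
    ps (s.map φ) k = φ (ps s k) := by
  simp [ps, map_multiset_sum, Multiset.map_map]

theorem ps_eq_sum {K : Type} [Field K] [DecidableEq K] (s : Multiset K) (A : Finset K)
    (hA : s.toFinset ⊆ A) (k : ℕ) : ps s k = ∑ β ∈ A, (s.count β : K) * β ^ k := by
  rw [ps, Finset.sum_multiset_map_count]
  simp only [nsmul_eq_mul]
  refine Finset.sum_subset hA fun x _ hx => ?_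
  rw [Multiset.mem_toFinset] at hx
  rw [Multiset.count_eq_zero_of_notMem hx]
  simp

theorem aeval_conj {R : Type} [CommRing R] [Algebra R ℂ]
    (hR : ∀ r : R, (starRingEnd ℂ) (algebraMap R ℂ r) = algebraMap R ℂ r) (g : R[X]) (z : ℂ)
    (h : aeval z g = 0) : aeval ((starRingEnd ℂ) z) g = 0 := by
  have h1 : (starRingEnd ℂ) (aeval z g) = aeval ((starRingEnd ℂ) z) g := by
    rw [aeval_def, aeval_def, hom_eval₂]
    congr 1
    exact RingHom.ext hR
  rw [← h1, h, map_zero]

theorem ofCorW : OfCorW := by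
  classical
  intro hE p _ T s f hf hs hw hC hcong
  obtain ⟨u, hu, -, hT, hconj⟩ := hC
  have hp : (p : ℕ).Prime := Fact.out
  have hp1 : (1 : ℝ) < p := by exact_mod_cast hp.one_lt
  have hp0 : (0 : ℝ) < p := by linarith
  have hinv : (p : ℝ)⁻¹ < 1 := inv_lt_one_of_one_lt₀ hp1
  have : Algebra.IsAlgebraic ℚ Lq := AlgebraicClosure.isAlgebraic ℚ
  let φ : Lq →ₐ[ℚ] ℂ := IsAlgClosed.lift
  let ψ : Lq →ₐ[ℚ] Kp p := IsAlgClosed.lift
  have hφ : Function.Injective φ := (φ : Lq →+* ℂ).injective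
  have hψ : Function.Injective ψ := (ψ : Lq →+* Kp p).injective
  have hrC : f.aroots ℂ = (f.aroots Lq).map φ := aroots_map_hom (φ : Lq →+* ℂ) f
  have hrK : f.aroots (Kp p) = (f.aroots Lq).map ψ := aroots_map_hom (ψ : Lq →+* Kp p) f
  have hsL : ∀ k, (s k : Lq) = ps (f.aroots Lq) k := by
    intro k
    apply hφ
    have h1 := ps_map (φ : Lq →+* ℂ) (f.aroots Lq) k
    rw [map_intCast, hs k, hrC]
    exact h1
  have hsK : ∀ k, (s k : Kp p) = ps (f.aroots (Kp p)) k := by
    intro k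
    have h1 := ps_map (ψ : Lq →+* Kp p) (f.aroots Lq) k
    rw [hrK]
    refine Eq.trans ?_ h1.symm
    rw [← hsL k, map_intCast]
  set U : Kp p := algebraMap ℚ_[p] (Kp p) u with hU
  have hUn : ‖U‖ = 1 := by
    rw [hU, PadicAlgCl.norm_extends p]
    exact PadicInt.isUnit_iff.1 hu
  have hU0 : U ≠ 0 := by
    intro h
    rw [h, norm_zero] at hUn
    exact zero_ne_one hUn
  set S := f.aroots (Kp p) with hS
  have hbound : ∀ k, 1 ≤ k → ‖ps S k - U ^ k‖ ≤ 1 * ((p : ℝ)⁻¹) ^ k := by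
    intro k hk
    have h1 : (p : ℤ_[p]) ^ k ∣ (s k : ℤ_[p]) - u ^ k := by
      have h2 : (p : ℤ_[p]) ^ k ∣ (T k : ℤ_[p]) - s k := by
        have := (Int.castRingHom ℤ_[p]).map_dvd (hcong k hk)
        simpa using this
      have h3 := dvd_sub (hT k hk) h2
      have h4 : (T k : ℤ_[p]) - u ^ k - (T k - s k) = s k - u ^ k := by ring
      rwa [h4] at h3
    have h5 : ‖(s k : ℤ_[p]) - u ^ k‖ ≤ (p : ℝ) ^ (-(k : ℤ)) := by
      rw [PadicInt.norm_le_pow_iff_mem_span_pow, Ideal.mem_span_singleton]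
      exact h1
    have h6 : ps S k - U ^ k =
        algebraMap ℚ_[p] (Kp p) (((s k : ℤ_[p]) - u ^ k : ℤ_[p]) : ℚ_[p]) := by
      rw [← hsK k, hU]
      push_cast
      simp
    rw [h6, PadicAlgCl.norm_extends p, one_mul, inv_pow, ← zpow_natCast, ← zpow_neg]
    exact h5
  have hexp := hE (Kp p) (insert U S.toFinset)
    (fun β => (S.count β : Kp p) - if β = U then 1 else 0) 1 ((p : ℝ)⁻¹) 1 (by positivity)
    (fun k hk => by
      have h1 : ∑ β ∈ insert U S.toFinset,
          ((S.count β : Kp p) - if β = U then 1 else 0) * β ^ k = ps S k - U ^ k := by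
        rw [ps_eq_sum S (insert U S.toFinset) (Finset.subset_insert _ _) k]
        simp [sub_mul, Finset.sum_sub_distrib]
      rw [h1]
      exact hbound k hk)
  have hcount : S.count U = 1 := by
    have h1 := hexp U (Finset.mem_insert_self _ _) (by rw [hUn]; exact hinv)
    simp only [if_true] at h1
    exact_mod_cast sub_eq_zero.1 h1
  have hbig : ∀ γ ∈ S, (p : ℝ)⁻¹ < ‖γ‖ → γ = U := by
    intro γ hγ hn
    by_contra hne
    have h1 := hexp γ (Finset.mem_insert_of_mem (Multiset.mem_toFinset.2 hγ)) hn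
    simp only [if_neg hne, sub_zero, Nat.cast_eq_zero] at h1
    exact (Multiset.count_ne_zero.2 hγ) h1
  have hUS : U ∈ S := Multiset.count_ne_zero.1 (by rw [hcount]; exact one_ne_zero)
  rcases hw with hw | ⟨hw, hdeg⟩
  · rw [hrK] at hUS
    obtain ⟨θ, hθ, hθU⟩ := Multiset.mem_map.1 hUS
    have hθ0 : θ ≠ 0 := by
      rintro rfl
      exact hU0 (by rw [← hθU, map_zero])
    have hz : ‖φ θ‖ ^ 2 = p := hw _ (by rw [hrC]; exact Multiset.mem_map_of_mem _ hθ)
    have hz0 : φ θ ≠ 0 := fun h => hθ0 (hφ (by rw [h, map_zero]))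
    have hc : (starRingEnd ℂ) (φ θ) = φ ((p : Lq) / θ) := by
      rw [map_div₀, map_natCast, eq_div_iff hz0, Complex.conj_mul']
      exact_mod_cast hz
    have h1 : aeval (φ θ) (minpoly ℚ θ) = 0 := by
      rw [aeval_algHom_apply, minpoly.aeval, map_zero]
    have h2 := aeval_conj (R := ℚ) (fun r => by simp) _ _ h1
    rw [hc, aeval_algHom_apply, map_eq_zero_iff _ hφ] at h2
    have h3 : aeval (ψ ((p : Lq) / θ)) (minpoly ℚ θ) = 0 := by
      rw [aeval_algHom_apply, h2, map_zero]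
    have h4 : minpoly ℚ θ = minpoly ℚ (u : ℚ_[p]) := by
      rw [← minpoly.algHom_eq ψ hψ θ, hθU, hU]
      exact minpoly.algebraMap_eq (algebraMap ℚ_[p] (Kp p)).injective _
    have h5 : ‖ψ ((p : Lq) / θ)‖ = (p : ℝ)⁻¹ := by
      rw [map_div₀, map_natCast, hθU, norm_div, hUn, div_one,
        ← map_natCast (algebraMap ℚ_[p] (Kp p)), PadicAlgCl.norm_extends p, Padic.norm_p]
    rw [h4] at h3
    have h6 := hconj _ h3 (fun h => by
      rw [h, hUn] at h5
      exact hinv.ne h5.symm)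
    exact h6.ne h5
  · have hall : ∀ γ ∈ S, U = γ := by
      intro γ hγ
      have hγ' := hγ
      rw [hrK] at hγ'
      obtain ⟨θ, hθ, hθγ⟩ := Multiset.mem_map.1 hγ'
      have hz : ‖φ θ‖ = 1 := hw _ (by rw [hrC]; exact Multiset.mem_map_of_mem _ hθ)
      have hz0 : φ θ ≠ 0 := fun h => by
        rw [h, norm_zero] at hz
        exact zero_ne_one hz
      have hθ0 : θ ≠ 0 := by
        rintro rfl
        exact hz0 (map_zero _)
      have hc : (starRingEnd ℂ) (φ θ) = φ θ⁻¹ := by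
        rw [map_inv₀, Complex.inv_eq_conj hz]
      have h0 := (mem_aroots.1 hθ).2
      have h1 : aeval (φ θ) f = 0 := by
        have := aeval_algHom_apply (φ : Lq →+* ℂ).toIntAlgHom θ f
        rw [h0, map_zero] at this
        exact this
      have h2 := aeval_conj (R := ℤ) (fun r => by simp) _ _ h1
      rw [hc] at h2
      have h3 : aeval θ⁻¹ f = 0 := by
        apply hφ
        rw [map_zero, ← h2]
        exact (aeval_algHom_apply (φ : Lq →+* ℂ).toIntAlgHom θ⁻¹ f).symm
      have h4 : γ⁻¹ ∈ S := by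
        rw [hrK, ← hθγ, ← map_inv₀]
        exact Multiset.mem_map_of_mem _ (mem_aroots.2 ⟨hf.ne_zero, h3⟩)
      have hγ0 : γ ≠ 0 := fun h => hθ0 (hψ (by rw [hθγ, h, map_zero]))
      have hn0 : 0 < ‖γ‖ := norm_pos_iff.2 hγ0
      refine (hbig γ hγ ?_).symm
      by_contra hle
      have hlt : ‖γ‖ < 1 := lt_of_le_of_lt (not_lt.1 hle) hinv
      have h5 : 1 < ‖γ⁻¹‖ := by
        rw [norm_inv]
        exact (one_lt_inv₀ hn0).2 hlt
      have h6 := hbig _ h4 (hinv.trans h5)
      rw [h6, hUn] at h5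
      exact lt_irrefl _ h5
    have h7 := Multiset.count_eq_card.2 hall
    rw [hcount, hS, IsAlgClosed.card_aroots_eq_natDegree] at h7
    exact hdeg h7.symm

end

end Pool.Agent.MP_ea150c_mp.H12
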