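import Pool.Agent.MP_ea150c_mp.H49.SpecK
import Pool.Agent.MP_ea150c_mp.H20.SpecR

/-! The conclusion of the perturbation theorem for matrix models. -/

namespace Pool.Agent.MP_ea150c_mp.H12

open Pool.Agent.MP_ea150c_mp.H49

section General
variable {R ι : Type} [CommRing R] [Fintype ι] [DecidableEq ι] (M : MM R ι) (π : R)

omit [Fintype ι] [DecidableEq ι] in
theorem mem_W (l : ℕ) (x : ι → R) : x ∈ M.W l ↔ ∀ i, l < M.lev i → x i = 0 := by
  simp only [MM.W, Submodule.mem_pi, Set.mem_univ, true_imp_iff]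
  refine forall_congr' fun i => ?_
  split_ifs with h
  · simp [h]
  · simp [not_le.1 h]

omit [Fintype ι] [DecidableEq ι] in
theorem mem_smW (l : ℕ) (y : ι → R) :
    y ∈ sm π (M.W l) ↔ (∀ i, π ∣ y i) ∧ ∀ i, l < M.lev i → y i = 0 := by
  constructor
  · rintro ⟨x, hx, rfl⟩
    refine ⟨fun i => ⟨x i, rfl⟩, fun i hi => ?_⟩
    have := (mem_W M l x).1 hx i hi
    simp [this]
  · rintro ⟨h1, h2⟩
    choose c hc using h1
    refine ⟨fun i => if l < M.lev i then 0 else c i, (mem_W M l _).2 fun i hi => if_pos hi, ?_⟩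
    funext i
    by_cases hi : l < M.lev i
    · simp [hi, h2 i hi]
    · simp [hi, hc i]

variable {M π}

theorem D_W0 (hG : M.Good π) (hm : M.Minimal π) (x : ι → R) (hx : x ∈ M.W 0) :
    M.D.mulVec x ∈ sm π (M.W 0) := by
  rw [mem_W] at hx
  rw [mem_smW]
  have key : ∀ i j, 0 < M.lev i → M.D i j * x j = 0 := by
    intro i j hi
    rcases Nat.eq_zero_or_pos (M.lev j) with hj | hj
    · rw [hG.fil i j (by omega) (by omega), zero_mul]
    · rw [hx j hj, mul_zero]
  refine ⟨fun i => ?_, fun i hi => Finset.sum_eq_zero fun j _ => key i j hi⟩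
  refine Finset.dvd_sum fun j _ => ?_
  rcases Nat.eq_zero_or_pos (M.lev i) with hi | hi
  · rcases Nat.eq_zero_or_pos (M.lev j) with hj | hj
    · exact (hm i j (by omega) (by omega)).mul_right _
    · rw [hx j hj, mul_zero]
      exact dvd_zero _
  · rw [key i j hi]
    exact dvd_zero _

theorem lev0 (hG : M.Good π) (hm : M.Minimal π) {e : ι → R} (he : M.H0 π e) (i : ι)
    (hi : M.lev i = 0) : ∃ c : R, ∀ j, π ∣ (Pi.single i 1 : ι → R) j - c * e j := by
  have hx : (Pi.single i 1 : ι → R) ∈ M.W 0 := (mem_W M 0 _).2 fun j hj =>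
    Pi.single_eq_of_ne (by rintro rfl; omega) _
  obtain ⟨c, z, hz, h⟩ := he.2.2 _ hx (D_W0 hG hm _ hx)
  have h2 := (sm π (M.W 0)).add_mem h (D_W0 hG hm z hz)
  rw [sub_add_cancel, mem_smW] at h2
  exact ⟨c, h2.1⟩

theorem lev0_par (hG : M.Good π) (hm : M.Minimal π) (hπ : ¬ π ∣ 1) {e : ι → R} (he : M.H0 π e)
    (i : ι) (hi : M.lev i = 0) : e i ≠ 0 := by
  obtain ⟨c, hc⟩ := lev0 hG hm he i hi
  intro h
  have := hc i
  rw [h, Pi.single_eq_same, mul_zero, sub_zero] at this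
  exact hπ this

theorem lev0_uniq (hG : M.Good π) (hm : M.Minimal π) (hπ : ¬ π ∣ 1) {e : ι → R} (he : M.H0 π e)
    (i j : ι) (hi : M.lev i = 0) (hj : M.lev j = 0) : i = j := by
  by_contra hne
  obtain ⟨c, hc⟩ := lev0 hG hm he i hi
  obtain ⟨c', hc'⟩ := lev0 hG hm he j hj
  have h1 := hc i
  have h2 := hc j
  have h3 := hc' j
  rw [Pi.single_eq_same] at h1 h3
  rw [Pi.single_eq_of_ne (Ne.symm hne)] at h2
  have h4 := hc' i
  rw [Pi.single_eq_of_ne hne] at h4
  apply hπ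
  have : (1 : R) = (1 - c * e i) + (c * e i) * (1 - c' * e j) - (c' * e i) * (0 - c * e j) := by
    ring
  rw [this]
  exact dvd_sub (dvd_add h1 (h3.mul_left _)) (h2.mul_left _)

theorem rigid (hG : M.Good π) (hm : M.Minimal π) (h0 : ∀ i, M.lev i = 0 → M.par i = false)
    (h1 : M.H1 π) (i j : ι) (hi : M.lev i = 1) (hj : M.lev j ≤ 1) (hp : M.par j = false) :
    π ^ 2 ∣ M.Ψ i j := by
  have hx : (Pi.single j 1 : ι → R) ∈ M.W 1 := (mem_W M 1 _).2 fun l hl =>
    Pi.single_eq_of_ne (by rintro rfl; omega) _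
  have hev : M.Ev (Pi.single j 1) := fun l hl =>
    Pi.single_eq_of_ne (by rintro rfl; simp [hp] at hl) _
  have hD : M.D.mulVec (Pi.single j 1) ∈ sm π (M.W 1) := by
    rw [mem_smW]
    simp only [Matrix.mulVec_single_one, Matrix.col_apply]
    refine ⟨fun l => ?_, fun l hl => hG.fil l j hj (by omega)⟩
    rcases lt_trichotomy (M.lev l) (M.lev j) with h | h | h
    · rw [hG.parD l j (by rw [h0 l (by omega), hp])]
      exact dvd_zero _
    · exact hm l j h (by omega)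
    · rw [hG.fil l j hj h]
      exact dvd_zero _
  obtain ⟨z, hz, h⟩ := h1 _ hx hev hD
  obtain ⟨a, ha, b, ⟨b', -, rfl⟩, hab⟩ := Submodule.mem_sup.1 h
  have h2 := congrFun hab i
  have h3 : a i = 0 := (mem_W M 0 a).1 ha i (by omega)
  have h4 : π ∣ M.D.mulVec z i := by
    refine Finset.dvd_sum fun l _ => ?_
    show π ∣ M.D i l * z l
    rcases lt_trichotomy (M.lev l) 1 with h | h | h
    · rw [hG.fil i l (by omega) (by omega), zero_mul]
      exact dvd_zero _
    · exact (hm i l (by omega) (by omega)).mul_right _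
    · rw [(mem_W M 1 z).1 hz l h, mul_zero]
      exact dvd_zero _
  obtain ⟨c, hc⟩ := h4
  simp only [Pi.add_apply, h3, zero_add, LinearMap.lsmul_apply, Pi.smul_apply, smul_eq_mul,
    Pi.sub_apply, Matrix.mulVec_single_one, Matrix.col_apply, hc] at h2
  exact ⟨b' i + c, by linear_combination -h2⟩

/-- The rows of `Ψ` of parity `b`. -/
def blk (M : MM R ι) (b : Bool) : Matrix ι ι R :=
  Matrix.of fun i j => if M.par i = b then M.Ψ i j else 0

theorem blk_pow (hG : M.Good π) (b : Bool) (k : ℕ) (i j : ι) :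
    (blk M b ^ (k + 1)) i j = if M.par i = b then (M.Ψ ^ (k + 1)) i j else 0 := by
  induction k generalizing i with
  | zero => simp [blk]
  | succ k ih =>
    rw [pow_succ' _ (k + 1), pow_succ' _ (k + 1), Matrix.mul_apply, Matrix.mul_apply]
    split_ifs with h
    · refine Finset.sum_congr rfl fun l _ => ?_
      rw [ih l]
      by_cases hl : M.par l = b
      · simp [blk, h, hl]
      · simp [blk, h, hl, hG.parΨ i l (by rw [h]; exact Ne.symm hl)]
    · simp [blk, h]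

theorem str_eq (hG : M.Good π) (k : ℕ) (hk : 1 ≤ k) :
    M.str k = (blk M false ^ k).trace - (blk M true ^ k).trace := by
  obtain ⟨k, rfl⟩ : ∃ j, k = j + 1 := ⟨k - 1, by omega⟩
  simp only [MM.str, Matrix.trace, Matrix.diag_apply, blk_pow hG, ← Finset.sum_sub_distrib]
  refine Finset.sum_congr rfl fun i _ => ?_
  cases M.par i <;> simp

theorem dvd_pow_entry (A : Matrix ι ι R) (h : ∀ i j, π ∣ A i j) (k : ℕ) (i j : ι) :
    π ^ k ∣ (A ^ k) i j := by
  induction k generalizing i with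
  | zero => simp
  | succ k ih =>
    rw [pow_succ' A, pow_succ' π, Matrix.mul_apply]
    exact Finset.dvd_sum fun l _ => mul_dvd_mul (h i l) (ih l)

end General

theorem p2 (h1 : P1) (hs : H20.SSplit) : P2 := by
  intro p S _ ι _ _ M₀ hG₀
  rcases subsingleton_or_nontrivial (ZMod (p ^ S)) with hsub | hnt
  · exact ⟨fun _ k _ => ⟨0, Subsingleton.elim _ _⟩,
      fun e _ _ _ _ d _ _ => ⟨0, 0, fun k _ => ⟨0, Subsingleton.elim _ _⟩⟩⟩
  set π : ZMod (p ^ S) := (p : ZMod (p ^ S)) with hπdef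
  let φ : ℤ_[p] →+* ZMod (p ^ S) := PadicInt.toZModPow S
  have hsurj : Function.Surjective φ := ZMod.ringHom_surjective φ
  have hφp : φ p = π := map_natCast φ p
  have hloc : ∀ x : ℤ_[p], IsUnit x ∨ (p : ℤ_[p]) ∣ x := by
    intro x
    rcases (PadicInt.norm_le_one x).eq_or_lt with h | h
    · exact Or.inl (PadicInt.isUnit_iff.2 h)
    · exact Or.inr ((PadicInt.norm_lt_one_iff_dvd x).1 h)
  have hloc' : ∀ r : ZMod (p ^ S), IsUnit r ∨ π ∣ r := by
    intro r
    obtain ⟨x, rfl⟩ := hsurj r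
    exact (hloc x).imp (fun h => h.map φ) (fun h => hφp ▸ map_dvd φ h)
  have hπ : ¬ π ∣ 1 := by
    intro h
    have h2 : π ^ S ∣ 1 ^ S := pow_dvd_pow_of_dvd h S
    have h3 : π ^ S = 0 := by
      rw [hπdef, ← Nat.cast_pow, ZMod.natCast_self]
    rw [h3, one_pow, zero_dvd_iff] at h2
    exact one_ne_zero h2
  obtain ⟨ι', _, _, M, hG, hm, hstr, hcard, hH0, hH0', hH1⟩ := h1 _ π hloc' ι M₀ hG₀
  have hrow : ∀ i j, M.lev i ≠ 0 → π ∣ M.Ψ i j := by
    intro i j hi
    by_cases h : M.lev i = 1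
    · exact hG.row1 i j h
    · exact (dvd_pow_self π two_ne_zero).trans (hG.row2 i j (by omega))
  refine ⟨fun h0 k hk => ?_, fun e₀ he₀ hh hu _ d hd hc => ?_⟩
  · rw [← hstr k hk]
    refine Finset.dvd_sum fun i _ => Dvd.dvd.mul_left (dvd_pow_entry _ (fun i j => ?_) k i i) _
    exact hrow i j fun hi => lev0_par hG hm hπ (hH0 h0) i hi rfl
  obtain ⟨e, he⟩ := hH0' e₀ he₀
  have h0 : ∀ i, M.lev i = 0 → M.par i = false := by
    intro i hi
    by_contra h
    exact lev0_par hG hm hπ he i hi (he.2.1 i (by simpa using h))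
  have hlift : ∀ (a : ℕ) (y : ZMod (p ^ S)), π ^ a ∣ y → ∃ x, (p : ℤ_[p]) ^ a ∣ x ∧ φ x = y := by
    rintro a y ⟨c, rfl⟩
    obtain ⟨x, rfl⟩ := hsurj c
    exact ⟨p ^ a * x, dvd_mul_right _ _, by rw [map_mul, map_pow, hφp]⟩
  have hA : ∀ i j, ∃ x : ℤ_[p], φ x = blk M false i j ∧ (M.lev i = 1 → (p : ℤ_[p]) ∣ x) ∧
      (1 ≤ M.lev i → (M.lev j ≤ 1 ∨ 2 ≤ M.lev i) → (p : ℤ_[p]) ^ 2 ∣ x) := by
    intro i j
    by_cases hi : M.par i = false
    swap
    · exact ⟨0, by simp [blk, hi], fun _ => dvd_zero _, fun _ _ => dvd_zero _⟩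
    by_cases hj : M.par j = false
    swap
    · exact ⟨0, by simp [blk, hi, hG.parΨ i j (by rw [hi]; exact Ne.symm hj)],
        fun _ => dvd_zero _, fun _ _ => dvd_zero _⟩
    have hb : blk M false i j = M.Ψ i j := by simp [blk, hi]
    rw [hb]
    by_cases h2 : 1 ≤ M.lev i ∧ (M.lev j ≤ 1 ∨ 2 ≤ M.lev i)
    · have h3 : π ^ 2 ∣ M.Ψ i j := by
        by_cases h4 : 2 ≤ M.lev i
        · exact hG.row2 i j h4
        · exact rigid hG hm h0 (hH1 hh) i j (by omega) (by omega) hj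
      obtain ⟨x, hx, hx'⟩ := hlift 2 _ h3
      exact ⟨x, hx', fun _ => (dvd_pow_self _ two_ne_zero).trans hx, fun _ _ => hx⟩
    · by_cases h3 : M.lev i = 1
      · obtain ⟨x, hx, hx'⟩ := hlift 1 (M.Ψ i j) (by rw [pow_one]; exact hG.row1 i j h3)
        exact ⟨x, hx', fun _ => by rwa [pow_one] at hx, fun a b => absurd ⟨a, b⟩ h2⟩
      · obtain ⟨x, hx⟩ := hsurj (M.Ψ i j)
        exact ⟨x, hx, fun a => absurd a h3, fun a b => absurd ⟨a, b⟩ h2⟩
  have hB : ∀ i j, ∃ x : ℤ_[p], π * φ x = blk M true i j ∧ (2 ≤ M.lev i → (p : ℤ_[p]) ∣ x) := by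
    intro i j
    by_cases hi : M.par i = true
    swap
    · exact ⟨0, by simp [blk, hi], fun _ => dvd_zero _⟩
    have hb : blk M true i j = M.Ψ i j := by simp [blk, hi]
    rw [hb]
    by_cases h2 : 2 ≤ M.lev i
    · obtain ⟨c, hc⟩ := hG.row2 i j h2
      obtain ⟨x, rfl⟩ := hsurj c
      exact ⟨p * x, by rw [hc, map_mul, hφp]; ring, fun _ => dvd_mul_right _ _⟩
    · obtain ⟨c, hc⟩ := hrow i j fun h => by simp [h0 i h] at hi
      obtain ⟨x, rfl⟩ := hsurj c
      exact ⟨x, hc.symm, fun a => absurd a h2⟩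
  choose A hA1 hA2 hA3 using hA
  choose B hB1 hB2 using hB
  have hAe : blk M false = φ.mapMatrix (Matrix.of A) := by
    ext i j
    exact (hA1 i j).symm
  have hBe : blk M true = π • φ.mapMatrix (Matrix.of B) := by
    ext i j
    exact (hB1 i j).symm
  have htr : ∀ {κ : Type} [Fintype κ] [DecidableEq κ] (N : Matrix κ κ ℤ_[p]) (k : ℕ),
      (φ.mapMatrix N ^ k).trace = φ (N ^ k).trace := by
    intro κ _ _ N k
    rw [← map_pow]
    simp [Matrix.trace]
  have hstr' : ∀ k, 1 ≤ k →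
      M₀.str k = φ ((Matrix.of A ^ k).trace - (p : ℤ_[p]) ^ k * (Matrix.of B ^ k).trace) := by
    intro k hk
    rw [← hstr k hk, str_eq hG k hk, hAe, hBe, smul_pow, Matrix.trace_smul, htr, htr, map_sub,
      map_mul, map_pow, hφp, smul_eq_mul]
  have hunit : IsUnit (Matrix.of A).trace := by
    refine (hloc _).resolve_right fun h => hπ ?_
    rw [hstr' 1 le_rfl, pow_one, pow_one] at hu
    have h2 := map_dvd φ (dvd_sub h (dvd_mul_right (p : ℤ_[p]) (Matrix.of B ^ 1).trace))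
    rw [hφp] at h2
    exact h2.trans hu.dvd
  obtain ⟨u, hu1⟩ := (hs p ι' (Matrix.of A)).1 M.lev (lev0_uniq hG hm hπ he) hA2 hA3 hunit
  obtain ⟨Λ, hΛ⟩ := (hs p ι' (Matrix.of B)).2 (Finset.univ.filter fun i => M.lev i ≤ 1) d
    (hcard.trans hc) (fun i j hi => hB2 i j (by simp at hi; omega))
  refine ⟨φ u, φ.mapMatrix Λ, fun k hk => ?_⟩
  have h2 : k / (d + 1) ≤ k / 2 := Nat.div_le_div_left (by omega) (by omega)
  have h3 : (p : ℤ_[p]) ^ (k + k / (d + 1)) ∣ ((Matrix.of A ^ k).trace - u ^ k) -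
      (p : ℤ_[p]) ^ k * ((Matrix.of B ^ k).trace - (Λ ^ k).trace) := by
    refine dvd_sub ((pow_dvd_pow _ (by omega)).trans (hu1 k hk)) ?_
    rw [pow_add]
    exact mul_dvd_mul_left _ (hΛ k hk)
  have h4 := map_dvd φ h3
  rw [map_pow, hφp] at h4
  convert h4 using 1
  rw [hstr' k hk, htr]
  simp only [map_sub, map_mul, map_pow, hφp]
  ring

end Pool.Agent.MP_ea150c_mp.H12
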