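import Pool.Agent.MP_ea150c_mp.H20.SpecM

/-! Primitive graphs with degrees at most four are good. -/

namespace Pool.Agent.MP_ea150c_mp.H12

open Pool.Agent.MP_ea150c_mp.H20 Finset

theorem sum_ind {E : Type} [Fintype E] [DecidableEq E] (γ S : Finset E) (c : ℤ) :
    ∑ e ∈ S, (if e ∈ γ then c else 0) = ((S ∩ γ).card : ℤ) * c := by
  rw [Finset.sum_ite_mem]
  simp

theorem ofQ : OfQ := by
  classical
  intro hSpan hQ1 V E _ _ _ _ s t hV hconn hdeg hprim
  obtain ⟨e₀, hint⟩ := hprim
  obtain ⟨hex, hforest⟩ := hSpan V E s t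
  have hne : Nonempty V := Fintype.card_pos_iff.1 (by omega)
  obtain ⟨T₀, -, hT₀⟩ := hex _ hne hconn
  have hQ := hQ1 E (univ.filter (IsTree s t)) e₀ ⟨T₀, by simpa using hT₀⟩ hint
  have hpos : ∀ γ : Finset E, e₀ ∉ γ → γ.Nonempty → ∀ c : ℤ, c ≠ 0 →
      ∃ T, IsTree s t T ∧ 2 * (((Tᶜ ∩ γ).card : ℤ) * c) < γ.card * c := by
    intro γ h0 hγ c hc
    obtain ⟨T, hT, h⟩ := hQ (fun e => if e ∈ γ then c else 0) (by simp [h0]) (by
      obtain ⟨e, he⟩ := hγ
      intro h
      have := congrFun h e
      simp [he, hc] at this)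
    refine ⟨T, by simpa using hT, ?_⟩
    rw [sum_ind, sum_ind, univ_inter] at h
    exact h
  have hcompl : ∀ T, IsTree s t T → Tᶜ.card + Fintype.card V = Fintype.card E + 1 := by
    intro T hT
    have h1 := hT.2
    have h2 := card_compl_add_card T
    omega
  have hN : Fintype.card E + 2 = 2 * Fintype.card V := by
    have h1 := hT₀.2
    have h2 := card_le_univ T₀
    have hc : (univ.erase e₀).card + 1 = Fintype.card E := by
      rw [card_erase_add_one (mem_univ _), card_univ]
    have hγ : (univ.erase e₀).Nonempty := card_pos.1 (by omega)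
    obtain ⟨T, hT, h3⟩ := hpos _ (notMem_erase _ _) hγ 1 one_ne_zero
    obtain ⟨T', hT', h4⟩ := hpos _ (notMem_erase _ _) hγ (-1) (by norm_num)
    have h5 := hcompl T hT
    have h6 := hcompl T' hT'
    have h7 : (T'ᶜ ∩ univ.erase e₀).card ≤ T'ᶜ.card := card_le_card inter_subset_left
    have h8 : Tᶜ.card ≤ (Tᶜ ∩ univ.erase e₀).card + 1 := by
      rw [inter_erase, inter_univ]
      have := pred_card_le_card_erase (s := Tᶜ) (a := e₀)
      omega
    omega
  have hkey : ∀ γ : Finset E, γ.Nonempty → γ.card < Fintype.card E →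
      ∃ T, IsTree s t T ∧ γ.card < 2 * (T ∩ γ).card := by
    intro γ hγ hlt
    have hsplit : ∀ T δ : Finset E, (T ∩ δ).card + (Tᶜ ∩ δ).card = δ.card := by
      intro T δ
      rw [← card_union_of_disjoint, ← union_inter_distrib_right, union_compl, univ_inter]
      exact (disjoint_compl_right.mono inter_subset_left inter_subset_left)
    by_cases h0 : e₀ ∈ γ
    · have hc := card_compl_add_card γ
      obtain ⟨T, hT, h⟩ := hpos γᶜ (by simpa using h0) (card_pos.1 (by omega)) (-1) (by norm_num)
      refine ⟨T, hT, ?_⟩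
      have h1 := hsplit T γ
      have h2 := hsplit γ Tᶜ
      rw [inter_comm γ, inter_comm γᶜ] at h2
      have h3 := hcompl T hT
      omega
    · obtain ⟨T, hT, h⟩ := hpos γ h0 hγ 1 one_ne_zero
      refine ⟨T, hT, ?_⟩
      have h1 := hsplit T γ
      omega
  have hkey2 : ∀ (γ : Finset E) (W : Finset V), γ.Nonempty → γ.card < Fintype.card E →
      (∀ e ∈ γ, s e ∈ W ∧ t e ∈ W) → γ.card + 3 ≤ 2 * W.card := by
    intro γ W hγ hlt hW
    obtain ⟨T, hT, h⟩ := hkey γ hγ hlt
    obtain ⟨e, he⟩ := hγ
    have h1 := hforest T W hT ⟨_, (hW e he).1⟩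
    have h2 : (T ∩ γ).card ≤ (T.filter fun e => s e ∈ W ∧ t e ∈ W).card :=
      card_le_card fun x hx => mem_filter.2 ⟨(mem_inter.1 hx).1, hW x (mem_inter.1 hx).2⟩
    omega
  refine ⟨hconn, fun e he => ?_, fun e e' h => ?_, fun v => ?_, hN⟩
  · have := hkey2 {e} {s e} (singleton_nonempty _) (by rw [card_singleton]; omega)
      (fun x hx => by rw [mem_singleton.1 hx]; simp [he])
    simp at this
  · by_contra hne'
    have hc : ({e, e'} : Finset E).card = 2 := card_pair hne'
    have h1 := hkey2 {e, e'} {s e, t e} (insert_nonempty _ _) (by omega) (fun x hx => by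
      rcases mem_insert.1 hx with rfl | hx
      · simp
      · rw [mem_singleton.1 hx]
        rcases Sym2.eq_iff.1 h with ⟨h1, h2⟩ | ⟨h1, h2⟩ <;> simp [h1, h2])
    have h2 : ({s e, t e} : Finset V).card ≤ 2 := card_le_two
    omega
  · have h4 := hdeg v
    by_contra hcon
    have h2 : deg s t v ≤ 2 := by omega
    set γ : Finset E := univ.filter fun e => s e ∈ univ.erase v ∧ t e ∈ univ.erase v with hγ
    have hW : (univ.erase v).card + 1 = Fintype.card V := by
      rw [card_erase_add_one (mem_univ _), card_univ]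
    have h3 : γᶜ.card ≤ deg s t v := by
      refine le_trans (card_le_card fun x hx => ?_) (card_union_le _ _)
      simp only [hγ, mem_compl, mem_filter, mem_univ, true_and, mem_erase, and_true,
        mem_union] at hx ⊢
      tauto
    have h5 := card_compl_add_card γ
    by_cases hlt : γ.card < Fintype.card E
    · have := hkey2 γ (univ.erase v) (card_pos.1 (by omega)) hlt (fun e he => (mem_filter.1 he).2)
      omega
    · have h6 : γ = univ := eq_univ_of_card _ (by omega)
      have h7 := hforest T₀ (univ.erase v) hT₀ (card_pos.1 (by omega))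
      rw [filter_true_of_mem (fun e _ => (mem_filter.1 (h6 ▸ mem_univ e : e ∈ γ)).2)] at h7
      have h8 := hT₀.2
      omega

end Pool.Agent.MP_ea150c_mp.H12
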